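import Mathlib
import Pool.Agent.H135R2.VS.Der
import Pool.Agent.Y76.NQ.Expl

/-!
# Logarithmic derivatives of exponentials

For a derivation `D` of the field of complex numbers the map `y ↦ D (e^y) / e^y` is linear over the
rational numbers. By the theorem of Lindemann and Weierstrass it can be prescribed on the algebraic
numbers.
-/

set_option autoImplicit false

namespace Q123.US

open Complex

/-- the map `y ↦ D (e^y) / e^y` -/
noncomputable def dl (D : Derivation ℚ ℂ ℂ) : ℂ →ₗ[ℚ] ℂ :=
  AddMonoidHom.toRatLinearMap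
    { toFun := fun y => D (exp y) / exp y
      map_zero' := by simp
      map_add' := by
        intro x y
        rw [exp_add, Derivation.leibniz, smul_eq_mul, smul_eq_mul]
        have h1 := exp_ne_zero x
        have h2 := exp_ne_zero y
        field_simp
        ring }

theorem dl_apply (D : Derivation ℚ ℂ ℂ) (y : ℂ) : dl D y = D (exp y) / exp y := rfl

theorem der_exp (D : Derivation ℚ ℂ ℂ) (y : ℂ) : D (exp y) = exp y * dl D y := by
  rw [dl_apply, mul_div_cancel₀ _ (exp_ne_zero y)]

/-- Derivations vanish at algebraic numbers. -/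
theorem der_alg (D : Derivation ℚ ℂ ℂ) {a : ℂ} (ha : IsAlgebraic ℚ a) : D a = 0 := by
  have hint : IsIntegral ℚ a := ha.isIntegral
  have h1 : Polynomial.aeval a (minpoly ℚ a) = 0 := minpoly.aeval ℚ a
  have h2 : D (Polynomial.aeval a (minpoly ℚ a)) = 0 := by rw [h1, map_zero]
  rw [Derivation.map_aeval] at h2
  have h3 : Polynomial.aeval a (Polynomial.derivative (minpoly ℚ a)) ≠ 0 :=
    (minpoly.irreducible hint).separable.aeval_derivative_ne_zero h1
  rw [smul_eq_mul] at h2
  exact (mul_eq_zero.mp h2).resolve_left h3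

/-- Derivations with prescribed logarithmic derivatives of the exponentials of the algebraic
numbers. -/
theorem exists_dl (l : ℂ →ₗ[ℚ] ℂ) :
    ∃ D : Derivation ℚ ℂ ℂ, ∀ a : ℂ, IsAlgebraic ℚ a → dl D a = l a := by
  classical
  let A : Submodule ℚ ℂ := Subalgebra.toSubmodule (algebraicClosure ℚ ℂ).toSubalgebra
  have hA : ∀ a : ℂ, a ∈ A ↔ IsAlgebraic ℚ a := fun a => mem_algebraicClosure_iff
  let b := Module.Basis.ofVectorSpace ℚ A
  have hind : AlgebraicIndependent ℚ (fun s => exp ((b s : A) : ℂ)) :=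
    Pool.Agent.Y76.NQ.algInd_exp (fun s => ((b s : A) : ℂ)) (fun s => (hA _).1 (b s).2)
      (b.linearIndependent.map' A.subtype (by simp))
  obtain ⟨D, hD⟩ := Pool.Agent.H135R2.VS.exists_der hind
    (fun s => l ((b s : A) : ℂ) * exp ((b s : A) : ℂ))
  refine ⟨D, fun a ha => ?_⟩
  have h1 : dl D ∘ₗ A.subtype = l ∘ₗ A.subtype := by
    refine b.ext (fun s => ?_)
    change dl D ((b s : A) : ℂ) = l ((b s : A) : ℂ)
    rw [dl_apply, hD s, mul_div_cancel_right₀ _ (exp_ne_zero _)]
  exact LinearMap.congr_fun h1 ⟨a, (hA a).2 ha⟩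

/-- A derivation with value one at a transcendental number. -/
theorem exists_der_one {t : ℂ} (ht : Transcendental ℚ t) : ∃ D : Derivation ℚ ℂ ℂ, D t = 1 := by
  have h1 : AlgebraicIndependent ℚ (fun _ : Unit => t) :=
    (algebraicIndependent_unique_type_iff (R := ℚ)).mpr ht
  obtain ⟨D, hD⟩ := Pool.Agent.H135R2.VS.exists_der h1 (fun _ => 1)
  exact ⟨D, hD ()⟩

end Q123.US
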