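import Mathlib
import Pool.Agent.Q123.US.Der

/-!
# The equation `g + h = 1` in groups of exponentials

Let `lam 0, …, lam (m-1)` be arbitrary complex numbers and consider the numbers `α e^{ℓ(w)}`,
`ℓ(w) = ∑ w_j lam_j + r`, with rational `w_j` and algebraic `r`, `α ≠ 0`. The elements of
`ℂ ⊗ E`, `E` the space of exponents, which are annihilated by the logarithmic derivatives form a
space of dimension at most `m`; the vector `g u + h v` is such an element if `g + h = 1` and `u`,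
`v` are the exponents of `g`, `h`.
-/

set_option autoImplicit false

namespace Q123.US

open Complex

/-- exponents -/
abbrev E (m : ℕ) := (Fin m → ℚ) × ℂ

/-- the logarithm with given exponents -/
noncomputable def ell {m : ℕ} (lam : Fin m → ℂ) : E m →ₗ[ℚ] ℂ :=
  LinearMap.coprod (Fintype.linearCombination ℚ lam) LinearMap.id

theorem ell_apply {m : ℕ} (lam : Fin m → ℂ) (w : E m) :
    ell lam w = ∑ j, (w.1 j : ℂ) * lam j + w.2 := by
  simp only [ell, LinearMap.coprod_apply, LinearMap.id_apply, Fintype.linearCombination_apply,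
    Algebra.smul_def]
  rfl

/-- `z = α e^{ℓ(w)}` with algebraic `α ≠ 0` and an algebraic last exponent -/
def Rep {m : ℕ} (lam : Fin m → ℂ) (z : ℂ) (w : E m) : Prop :=
  IsAlgebraic ℚ w.2 ∧ ∃ a : ℂ, IsAlgebraic ℚ a ∧ a ≠ 0 ∧ z = a * exp (ell lam w)

/-- a solution of `g + h = 1` with exponents `u`, `v` -/
structure Sol {m : ℕ} (lam : Fin m → ℂ) (g h : ℂ) (u v : E m) : Prop where
  sum : g + h = 1
  trans : Transcendental ℚ g
  repg : Rep lam g u
  reph : Rep lam h v

variable {m : ℕ} {lam : Fin m → ℂ}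

theorem Rep.der {z : ℂ} {w : E m} (hz : Rep lam z w) (D : Derivation ℚ ℂ ℂ) :
    D z = z * dl D (ell lam w) := by
  obtain ⟨-, a, ha, -, rfl⟩ := hz
  rw [Derivation.leibniz, der_alg D ha, smul_zero, add_zero, smul_eq_mul, der_exp, mul_assoc]

theorem Rep.ne_zero {z : ℂ} {w : E m} (hz : Rep lam z w) : z ≠ 0 := by
  obtain ⟨-, a, -, ha, rfl⟩ := hz
  exact mul_ne_zero ha (exp_ne_zero _)

theorem Rep.mul {z z' : ℂ} {w w' : E m} (hz : Rep lam z w) (hz' : Rep lam z' w') :
    Rep lam (z * z') (w + w') := by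
  obtain ⟨h1, a, ha, ha0, rfl⟩ := hz
  obtain ⟨h2, b, hb, hb0, rfl⟩ := hz'
  refine ⟨h1.add h2, a * b, ha.mul hb, mul_ne_zero ha0 hb0, ?_⟩
  rw [map_add, exp_add]
  ring

theorem Rep.inv {z : ℂ} {w : E m} (hz : Rep lam z w) : Rep lam z⁻¹ (-w) := by
  obtain ⟨h1, a, ha, ha0, rfl⟩ := hz
  refine ⟨h1.neg, a⁻¹, ha.inv, inv_ne_zero ha0, ?_⟩
  rw [map_neg, exp_neg, mul_inv]

theorem Rep.div {z z' : ℂ} {w w' : E m} (hz : Rep lam z w) (hz' : Rep lam z' w') :
    Rep lam (z / z') (w - w') := by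
  rw [div_eq_mul_inv, sub_eq_add_neg]
  exact hz.mul hz'.inv

theorem Rep.alg {z : ℂ} (hz : IsAlgebraic ℚ z) (h0 : z ≠ 0) : Rep lam z 0 :=
  ⟨isAlgebraic_zero, z, hz, h0, by simp⟩

theorem Rep.neg {z : ℂ} {w : E m} (hz : Rep lam z w) : Rep lam (-z) w := by
  have h1 : Rep lam (-1 : ℂ) (0 : E m) := Rep.alg isAlgebraic_one.neg (by norm_num)
  have := h1.mul hz
  rwa [zero_add, neg_one_mul] at this

/-- A number killed by all derivations is algebraic. -/
theorem alg_of_der {z : ℂ} (h : ∀ D : Derivation ℚ ℂ ℂ, D z = 0) : IsAlgebraic ℚ z := by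
  by_contra hz
  obtain ⟨D, hD⟩ := exists_der_one hz
  rw [h D] at hD
  exact zero_ne_one hD

namespace Sol

variable {g h : ℂ} {u v : E m}

theorem irr (S : Sol lam g h u v) (p q : ℚ) (hpq : g * p + h * q = 0) : p = 0 ∧ q = 0 := by
  have hh : h = 1 - g := by rw [← S.sum]; ring
  have h1 : g * ((p : ℂ) - q) = -(q : ℂ) := by rw [hh] at hpq; linear_combination hpq
  by_cases hne : p = q
  · subst hne
    rw [sub_self, mul_zero] at h1
    have : (p : ℂ) = 0 := by linear_combination h1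
    have : p = 0 := by exact_mod_cast this
    exact ⟨this, this⟩
  · exfalso
    have hne' : ((p : ℂ) - q) ≠ 0 := by
      rw [sub_ne_zero]
      exact_mod_cast hne
    have h2 : g = ((-(q : ℚ) / (p - q) : ℚ) : ℂ) := by
      push_cast
      rw [eq_div_iff hne', h1]
    apply S.trans
    rw [h2]
    exact isAlgebraic_algebraMap (A := ℂ) (-(q : ℚ) / (p - q) : ℚ)

theorem der (S : Sol lam g h u v) (D : Derivation ℚ ℂ ℂ) :
    g * dl D (ell lam u) + h * dl D (ell lam v) = 0 := by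
  have h1 := congrArg D S.sum
  rw [map_add, S.repg.der, S.reph.der, Derivation.map_one_eq_zero] at h1
  exact h1

theorem indep_dl (S : Sol lam g h u v) (p q : ℚ)
    (hpq : ∀ D : Derivation ℚ ℂ ℂ, (p : ℂ) * dl D (ell lam u) + q * dl D (ell lam v) = 0) :
    p = 0 ∧ q = 0 := by
  obtain ⟨D, hD⟩ := exists_der_one S.trans
  have h1 := hpq D
  have h2 : g * dl D (ell lam u) = 1 := by rw [← S.repg.der D, hD]
  have h3 : h * dl D (ell lam v) = -1 := by
    have := S.der D
    rw [h2] at this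
    linear_combination this
  have h4 : g * ((-q : ℚ) : ℂ) + h * (p : ℂ) = 0 := by
    push_cast
    linear_combination (g * h) * h1 - (p : ℂ) * h * h2 - (q : ℂ) * g * h3
  obtain ⟨h5, h6⟩ := S.irr _ _ h4
  exact ⟨h6, by linarith⟩

theorem indep (S : Sol lam g h u v) (p q : ℚ) (hpq : p • u + q • v = 0) : p = 0 ∧ q = 0 := by
  refine S.indep_dl p q fun D => ?_
  have h1 := congrArg (fun w => dl D (ell lam w)) hpq
  simp only [map_add, map_smul, map_zero] at h1
  rw [Algebra.smul_def, Algebra.smul_def] at h1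
  exact h1

theorem swap (S : Sol lam g h u v) : Sol lam h g v u := by
  refine ⟨by rw [add_comm]; exact S.sum, ?_, S.reph, S.repg⟩
  intro hh
  apply S.trans
  have : g = 1 - h := by rw [← S.sum]; ring
  rw [this]
  exact isAlgebraic_one.sub hh

end Sol

/-- **The dimension of the space of relations between the logarithmic derivatives.** -/
theorem exists_dep {ι k : Type*} [Fintype ι] [Fintype k] (hcard : m < Fintype.card ι) (w : k → E m)
    (hw : ∀ j, IsAlgebraic ℚ (w j).2) (z : ι → k → ℂ)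
    (hz : ∀ (i : ι) (D : Derivation ℚ ℂ ℂ), ∑ j, z i j * dl D (ell lam (w j)) = 0) :
    ∃ c : ι → ℂ, c ≠ 0 ∧
      ∀ f : E m →ₗ[ℚ] ℚ, ∑ i, c i * ∑ j, z i j * (f (w j) : ℂ) = 0 := by
  classical
  let T : (ι → ℂ) →ₗ[ℂ] (Fin m → ℂ) :=
    { toFun := fun c a => ∑ i, c i * ∑ j, z i j * ((w j).1 a : ℂ)
      map_add' := by
        intro c c'
        ext a
        simp only [Pi.add_apply, add_mul, Finset.sum_add_distrib]
      map_smul' := by
        intro b c
        ext a
        simp only [Pi.smul_apply, smul_eq_mul, RingHom.id_apply, Finset.mul_sum, mul_assoc] }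
  have hker : LinearMap.ker T ≠ ⊥ := LinearMap.ker_ne_bot_of_finrank_lt (by simpa using hcard)
  obtain ⟨c, hc, hc0⟩ := (Submodule.ne_bot_iff _).mp hker
  have hT : ∀ a, ∑ i, c i * ∑ j, z i j * ((w j).1 a : ℂ) = 0 := fun a =>
    congrFun (LinearMap.mem_ker.mp hc) a
  refine ⟨c, hc0, fun f => ?_⟩
  set φ : ℂ →ₗ[ℚ] ℚ := f ∘ₗ LinearMap.inr ℚ (Fin m → ℚ) ℂ with hφ
  obtain ⟨D, hD⟩ := exists_dl ((Algebra.linearMap ℚ ℂ) ∘ₗ φ)
  have hf : ∀ w : E m, (f w : ℂ) = ∑ a, (w.1 a : ℂ) * (f (Pi.single a 1, 0) : ℂ) + (φ w.2 : ℂ) := by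
    intro w
    have h1 : w = ∑ a, w.1 a • ((Pi.single a 1, 0) : E m) + ((0, w.2) : E m) := by
      ext a
      · simp [Prod.fst_sum, Finset.sum_apply, Pi.single_apply]
      · simp [Prod.snd_sum]
    have h2 : f w = ∑ a, w.1 a * f (Pi.single a 1, 0) + φ w.2 := by
      conv_lhs => rw [h1]
      rw [map_add, map_sum]
      simp only [map_smul, smul_eq_mul]
      rfl
    rw [h2]
    push_cast
    rfl
  have hdl : ∀ w : E m, IsAlgebraic ℚ w.2 →
      dl D (ell lam w) = ∑ a, (w.1 a : ℂ) * dl D (lam a) + (φ w.2 : ℂ) := by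
    intro w hw
    have h1 : ell lam w = ∑ a, w.1 a • lam a + w.2 := by
      rw [ell_apply]
      simp only [Algebra.smul_def]
      rfl
    rw [h1, map_add, map_sum, hD _ hw]
    have h2 : ∀ a, dl D (w.1 a • lam a) = (w.1 a : ℂ) * dl D (lam a) := by
      intro a
      rw [map_smul, Algebra.smul_def]
      rfl
    rw [Finset.sum_congr rfl (fun a _ => h2 a)]
    rfl
  have hdiff : ∀ j, (f (w j) : ℂ) = dl D (ell lam (w j)) +
      ∑ a, ((w j).1 a : ℂ) * ((f (Pi.single a 1, 0) : ℂ) - dl D (lam a)) := by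
    intro j
    rw [hf, hdl _ (hw j)]
    simp only [mul_sub, Finset.sum_sub_distrib]
    ring
  have hstep : ∀ i, ∑ j, z i j * (f (w j) : ℂ) =
      ∑ a, (∑ j, z i j * ((w j).1 a : ℂ)) * ((f (Pi.single a 1, 0) : ℂ) - dl D (lam a)) := by
    intro i
    have h1 : ∑ j, z i j * (f (w j) : ℂ) = ∑ j, z i j * dl D (ell lam (w j)) +
        ∑ j, z i j * ∑ a, ((w j).1 a : ℂ) * ((f (Pi.single a 1, 0) : ℂ) - dl D (lam a)) := by
      rw [← Finset.sum_add_distrib]
      refine Finset.sum_congr rfl fun j _ => ?_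
      rw [hdiff j, mul_add]
    rw [h1, hz i D, zero_add]
    simp only [Finset.mul_sum, Finset.sum_mul]
    rw [Finset.sum_comm]
    refine Finset.sum_congr rfl fun a _ => Finset.sum_congr rfl fun j _ => ?_
    ring
  calc ∑ i, c i * ∑ j, z i j * (f (w j) : ℂ)
      = ∑ i, c i * ∑ a, (∑ j, z i j * ((w j).1 a : ℂ)) *
          ((f (Pi.single a 1, 0) : ℂ) - dl D (lam a)) :=
        Finset.sum_congr rfl fun i _ => by rw [hstep i]
    _ = ∑ a, (∑ i, c i * ∑ j, z i j * ((w j).1 a : ℂ)) *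
          ((f (Pi.single a 1, 0) : ℂ) - dl D (lam a)) := by
        simp only [Finset.mul_sum, Finset.sum_mul]
        rw [Finset.sum_comm]
        refine Finset.sum_congr rfl fun a _ => Finset.sum_congr rfl fun i _ =>
          Finset.sum_congr rfl fun j _ => ?_
        ring
    _ = 0 := Finset.sum_eq_zero fun a _ => by rw [hT a, zero_mul]

/-- Rational linear independence of exponents and complex coefficients. -/
theorem coeff_zero {k : Type*} [Fintype k] {w : k → E m} (hw : LinearIndependent ℚ w) (ζ : k → ℂ)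
    (h : ∀ f : E m →ₗ[ℚ] ℚ, ∑ j, ζ j * (f (w j) : ℂ) = 0) : ζ = 0 := by
  classical
  ext j
  let b := Module.Basis.extend (hw.linearIndepOn_id)
  have hex : ∀ i, ∃ I, b I = w i := fun i =>
    ⟨⟨w i, (hw.linearIndepOn_id).subset_extend _ ⟨i, rfl⟩⟩, by
      rw [Module.Basis.extend_apply_self]⟩
  obtain ⟨J, hJ⟩ := hex j
  have h1 := h (b.coord J)
  rw [Finset.sum_eq_single j] at h1
  · rw [← hJ, Module.Basis.coord_apply, Module.Basis.repr_self, Finsupp.single_eq_same] at h1
    simpa using h1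
  · intro i _ hi
    obtain ⟨I, hI⟩ := hex i
    have hIJ : I ≠ J := by
      rintro rfl
      exact hi (hw.injective (hI.symm.trans hJ))
    rw [← hI, Module.Basis.coord_apply, Module.Basis.repr_self, Finsupp.single_eq_of_ne hIJ.symm]
    simp
  · intro h2
    exact absurd (Finset.mem_univ j) h2

end Q123.US
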