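import Mathlib
import Pool.Agent.Q123.US.Core

/-!
# Six solutions

If the exponents of a solution of `g + h = 1` lie in the rational plane spanned by the exponents of
another solution, then the solutions differ by one of the six obvious symmetries.
-/

set_option autoImplicit false

namespace Q123.US

open Complex

/-- the six solutions with the same cross ratio -/
def Orbit (g h g1 h1 : ℂ) : Prop :=
  (g1 = g ∧ h1 = h) ∨ (g1 = h ∧ h1 = g) ∨ (g1 = 1 / g ∧ h1 = -h / g) ∨
    (g1 = -h / g ∧ h1 = 1 / g) ∨ (g1 = 1 / h ∧ h1 = -g / h) ∨ (g1 = -g / h ∧ h1 = 1 / h)

theorem orbit_of_fst {g h g1 h1 : ℂ} (hgh : g + h = 1) (h11 : g1 + h1 = 1) (hg : g ≠ 0)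
    (hh : h ≠ 0) (H : g1 = g ∨ g1 = h ∨ g1 = 1 / g ∨ g1 = -h / g ∨ g1 = 1 / h ∨ g1 = -g / h) :
    Orbit g h g1 h1 := by
  have e1 : h1 = 1 - g1 := by rw [← h11]; ring
  unfold Orbit
  rcases H with H | H | H | H | H | H
  · left
    refine ⟨H, ?_⟩
    rw [e1, H]; linear_combination -hgh
  · right; left
    refine ⟨H, ?_⟩
    rw [e1, H]; linear_combination -hgh
  · right; right; left
    refine ⟨H, ?_⟩
    rw [e1, H]; field_simp; linear_combination hgh
  · right; right; right; left
    refine ⟨H, ?_⟩
    rw [e1, H]; field_simp; linear_combination hgh
  · right; right; right; right; left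
    refine ⟨H, ?_⟩
    rw [e1, H]; field_simp; linear_combination hgh
  · right; right; right; right; right
    refine ⟨H, ?_⟩
    rw [e1, H]; field_simp; linear_combination hgh

/-- the polynomial identity at a transcendental number -/
theorem cubic_identity {t : ℂ} (ht : Transcendental ℚ t) (a b c d : ℚ)
    (H : (((c : ℂ) + d) * t - c) * (((c : ℂ) + d - a - b) * t + (a - c)) * (a - ((a : ℂ) + b) * t) =
      ((a : ℂ) * d - b * c) * (t * (1 - t))) :
    c * (a - c) * a = 0 ∧ d * (d - b) * b = 0 ∧ (c + d) * (c + d - a - b) * (a + b) = 0 := by
  set P : Polynomial ℚ :=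
    (Polynomial.C (c + d) * Polynomial.X - Polynomial.C c) *
      (Polynomial.C (c + d - a - b) * Polynomial.X + Polynomial.C (a - c)) *
      (Polynomial.C a - Polynomial.C (a + b) * Polynomial.X) -
      Polynomial.C (a * d - b * c) * (Polynomial.X * (1 - Polynomial.X)) with hP
  have h0 : Polynomial.aeval t P = 0 := by
    rw [hP]
    simp only [map_sub, map_mul, map_add, Polynomial.aeval_C, Polynomial.aeval_X, map_one,
      eq_ratCast]
    rw [sub_eq_zero]
    rw [← H]
  have hP0 : P = 0 := by
    by_contra hne
    exact ht ⟨P, hne, h0⟩
  have hev : ∀ x : ℚ, ((c + d) * x - c) * ((c + d - a - b) * x + (a - c)) * (a - (a + b) * x) -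
      (a * d - b * c) * (x * (1 - x)) = 0 := by
    intro x
    have := congrArg (Polynomial.eval x) hP0
    rw [hP] at this
    simpa using this
  have e0 := hev 0
  have e1 := hev 1
  have e2 := hev 2
  have e3 := hev (-1)
  refine ⟨by linear_combination -e0, by linear_combination -e1, ?_⟩
  linear_combination (-1 / 6 : ℚ) * (e2 - 3 * e1 + 3 * e0 - e3)

variable {m : ℕ} {lam : Fin m → ℂ}

/-- **Six solutions.** -/
theorem orbit_of_coords {g h g1 h1 : ℂ} {u v u1 v1 : E m} (S : Sol lam g h u v)
    (S1 : Sol lam g1 h1 u1 v1) (a b c d : ℚ)
    (hu : ∀ D : Derivation ℚ ℂ ℂ, dl D (ell lam u1) = a * dl D (ell lam u) + b * dl D (ell lam v))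
    (hv : ∀ D : Derivation ℚ ℂ ℂ, dl D (ell lam v1) = c * dl D (ell lam u) + d * dl D (ell lam v)) :
    Orbit g h g1 h1 := by
  have hdet : a * d - b * c ≠ 0 := by
    intro h0
    have h0' : (a : ℂ) * d - b * c = 0 := by exact_mod_cast h0
    obtain ⟨hd, hb⟩ := S1.indep_dl d (-b) (by
      intro D
      rw [hu, hv]
      push_cast
      linear_combination dl D (ell lam u) * h0')
    obtain ⟨hc, ha⟩ := S1.indep_dl c (-a) (by
      intro D
      rw [hu, hv]
      push_cast
      linear_combination -dl D (ell lam v) * h0')
    have hb' : b = 0 := by linarith
    have ha' : a = 0 := by linarith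
    refine one_ne_zero (S1.indep_dl 1 0 (fun D => ?_)).1
    rw [hu, ha', hb']
    push_cast
    ring
  obtain ⟨D, hD⟩ := exists_der_one S.trans
  have hg := S.repg.ne_zero
  have hh := S.reph.ne_zero
  have hg1 := S1.repg.ne_zero
  have hh1 := S1.reph.ne_zero
  set x := dl D (ell lam u) with hx
  set y := dl D (ell lam v) with hy
  have ex : g * x = 1 := by rw [hx, ← S.repg.der D, hD]
  have ey : h * y = -1 := by
    have := S.der D
    rw [← hx, ← hy, ex] at this
    linear_combination this
  have hdu : dl D (ell lam u1) = a * x + b * y := hu D
  have hdv : dl D (ell lam v1) = c * x + d * y := hv D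
  have hDg1 : D g1 = g1 * (a * x + b * y) := by rw [S1.repg.der D, hdu]
  have hrel : g1 * (a * x + b * y) + h1 * (c * x + d * y) = 0 := by
    rw [← hdu, ← hdv]; exact S1.der D
  have hh' : h = 1 - g := by rw [← S.sum]; ring
  have hh1' : h1 = 1 - g1 := by rw [← S1.sum]; ring
  subst hh'
  subst hh1'
  -- the relation `s L₂ = L₁`
  have hM : g1 * (((c : ℂ) + d - a - b) * g + (a - c)) = ((c : ℂ) + d) * g - c := by
    have e1 : (g1 * (a * x + b * y) + (1 - g1) * (c * x + d * y)) * (g * (1 - g)) = 0 := by
      rw [hrel, zero_mul]
    have e2 : (g1 * (a * x + b * y) + (1 - g1) * (c * x + d * y)) * (g * (1 - g)) =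
        g1 * (a * (g * x) * (1 - g) + b * ((1 - g) * y) * g) +
          (1 - g1) * (c * (g * x) * (1 - g) + d * ((1 - g) * y) * g) := by ring
    rw [e2, ex, ey] at e1
    linear_combination e1
  have hDM := congrArg D hM
  have hDrat : ∀ q : ℚ, D (q : ℂ) = 0 := fun q => by
    have := D.map_algebraMap q
    simpa using this
  have hDs : D g1 * (((c : ℂ) + d - a - b) * g + (a - c)) + g1 * ((c : ℂ) + d - a - b) =
      (c : ℂ) + d := by
    simp only [Derivation.leibniz, map_sub, map_add, hDrat, hD, smul_eq_mul] at hDM
    linear_combination hDM
  have hDs2 : D g1 * (g * (1 - g)) = g1 * (a - ((a : ℂ) + b) * g) := by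
    rw [hDg1]
    have e2 : g1 * (a * x + b * y) * (g * (1 - g)) =
        g1 * (a * (g * x) * (1 - g) + b * ((1 - g) * y) * g) := by ring
    rw [e2, ex, ey]
    ring
  have hcub : (((c : ℂ) + d) * g - c) * (((c : ℂ) + d - a - b) * g + (a - c)) *
      (a - ((a : ℂ) + b) * g) = ((a : ℂ) * d - b * c) * (g * (1 - g)) := by
    set L2 : ℂ := ((c : ℂ) + d - a - b) * g + (a - c) with hL2
    set L1 : ℂ := ((c : ℂ) + d) * g - c with hL1
    have e1 : D g1 * L2 * (g * (1 - g)) * L2 = ((c : ℂ) + d - g1 * ((c : ℂ) + d - a - b)) *
        (g * (1 - g)) * L2 := by
      linear_combination ((g * (1 - g)) * L2) * hDs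
    have e2 : D g1 * L2 * (g * (1 - g)) * L2 = g1 * L2 * L2 * (a - ((a : ℂ) + b) * g) := by
      calc D g1 * L2 * (g * (1 - g)) * L2 = (D g1 * (g * (1 - g))) * L2 * L2 := by ring
        _ = g1 * L2 * L2 * (a - ((a : ℂ) + b) * g) := by rw [hDs2]; ring
    rw [e2, hM] at e1
    rw [e1]
    have e3 : ((c : ℂ) + d - g1 * ((c : ℂ) + d - a - b)) * (g * (1 - g)) * L2 =
        (((c : ℂ) + d) * L2 - (g1 * L2) * ((c : ℂ) + d - a - b)) * (g * (1 - g)) := by ring
    rw [e3, hM, hL1, hL2]
    ring
  obtain ⟨k0, k1, k2⟩ := cubic_identity S.trans a b c d hcub
  have key : g1 = g ∨ g1 = (1 - g) ∨ g1 = 1 / g ∨ g1 = -(1 - g) / g ∨ g1 = 1 / (1 - g) ∨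
      g1 = -g / (1 - g) := by
    rcases mul_eq_zero.mp k0 with k0 | ha
    · rcases mul_eq_zero.mp k0 with hc | hac
      · -- c = 0
        subst hc
        rcases mul_eq_zero.mp k1 with k1 | hb
        · rcases mul_eq_zero.mp k1 with hd | hbd
          · exact absurd (by rw [hd]; ring) hdet
          · -- b = d
            have hb : b = d := by linarith
            subst hb
            have ha0 : a ≠ 0 := by rintro rfl; apply hdet; ring
            have hb0 : b ≠ 0 := by rintro rfl; apply hdet; ring
            have hab : a + b = 0 := by
              rcases mul_eq_zero.mp k2 with k2 | k2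
              · rcases mul_eq_zero.mp k2 with k2 | k2
                · exact absurd (by linarith) hb0
                · exact absurd (by linarith) ha0
              · exact k2
            have hb' : b = -a := by linarith
            subst hb'
            right; right; right; right; right
            have ha' : (a : ℂ) ≠ 0 := by exact_mod_cast ha0
            rw [eq_div_iff hh]
            push_cast at hM
            apply mul_left_cancel₀ ha'
            linear_combination hM
        · -- c = 0, b = 0
          subst hb
          have ha0 : a ≠ 0 := by rintro rfl; apply hdet; ring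
          have hd0 : d ≠ 0 := by rintro rfl; apply hdet; ring
          have had : a = d := by
            rcases mul_eq_zero.mp k2 with k2 | k2
            · rcases mul_eq_zero.mp k2 with k2 | k2
              · exact absurd (by linarith) hd0
              · linarith
            · exact absurd (by linarith) ha0
          subst had
          left
          have ha' : (a : ℂ) ≠ 0 := by exact_mod_cast ha0
          push_cast at hM
          apply mul_left_cancel₀ ha'
          linear_combination hM
      · -- a = c
        have hac' : a = c := by linarith
        subst hac'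
        rcases mul_eq_zero.mp k1 with k1 | hb
        · rcases mul_eq_zero.mp k1 with hd | hbd
          · -- d = 0
            subst hd
            have ha0 : a ≠ 0 := by rintro rfl; apply hdet; ring
            have hb0 : b ≠ 0 := by rintro rfl; apply hdet; ring
            have hab : a + b = 0 := by
              rcases mul_eq_zero.mp k2 with k2 | k2
              · rcases mul_eq_zero.mp k2 with k2 | k2
                · exact absurd (by linarith) ha0
                · exact absurd (by linarith) hb0
              · exact k2
            have hb' : b = -a := by linarith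
            subst hb'
            right; right; right; left
            have ha' : (a : ℂ) ≠ 0 := by exact_mod_cast ha0
            rw [eq_div_iff hg]
            push_cast at hM
            apply mul_left_cancel₀ ha'
            linear_combination hM
          · exact absurd (by
              have : b = d := by linarith
              rw [this]; ring) hdet
        · -- b = 0
          subst hb
          have ha0 : a ≠ 0 := by rintro rfl; apply hdet; ring
          have hd0 : d ≠ 0 := by rintro rfl; apply hdet; ring
          have hcd : a + d = 0 := by
            rcases mul_eq_zero.mp k2 with k2 | k2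
            · rcases mul_eq_zero.mp k2 with k2 | k2
              · exact k2
              · exact absurd (by linarith) hd0
            · exact absurd (by linarith) ha0
          have hd' : d = -a := by linarith
          subst hd'
          right; right; left
          have ha' : (a : ℂ) ≠ 0 := by exact_mod_cast ha0
          rw [eq_div_iff hg]
          push_cast at hM
          apply mul_left_cancel₀ ha'
          linear_combination -hM
    · -- a = 0
      subst ha
      rcases mul_eq_zero.mp k1 with k1 | hb
      · rcases mul_eq_zero.mp k1 with hd | hbd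
        · -- d = 0
          subst hd
          have hc0 : c ≠ 0 := by rintro rfl; apply hdet; ring
          have hb0 : b ≠ 0 := by rintro rfl; apply hdet; ring
          have hcb : c = b := by
            rcases mul_eq_zero.mp k2 with k2 | k2
            · rcases mul_eq_zero.mp k2 with k2 | k2
              · exact absurd (by linarith) hc0
              · linarith
            · exact absurd (by linarith) hb0
          subst hcb
          right; left
          have hc' : (c : ℂ) ≠ 0 := by exact_mod_cast hc0
          push_cast at hM
          apply mul_left_cancel₀ hc'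
          linear_combination -hM
        · -- b = d
          have hb : b = d := by linarith
          subst hb
          have hc0 : c ≠ 0 := by rintro rfl; apply hdet; ring
          have hb0 : b ≠ 0 := by rintro rfl; apply hdet; ring
          have hcd : c + b = 0 := by
            rcases mul_eq_zero.mp k2 with k2 | k2
            · rcases mul_eq_zero.mp k2 with k2 | k2
              · exact k2
              · exact absurd (by linarith) hc0
            · exact absurd (by linarith) hb0
          have hc' : c = -b := by linarith
          subst hc'
          right; right; right; right; left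
          have hb' : (b : ℂ) ≠ 0 := by exact_mod_cast hb0
          rw [eq_div_iff hh]
          push_cast at hM
          apply mul_left_cancel₀ hb'
          linear_combination hM
      · exact absurd (by rw [hb]; ring) hdet
  exact orbit_of_fst S.sum S1.sum hg hh key

end Q123.US
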