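import Mathlib
import Pool.Agent.Q123.US.Six

/-!
# Several numbers

Let `lam 0, …, lam (m-1)` be arbitrary complex numbers. If there are `κ` algebraic monomials and `p`
solutions of `g + h = 1` with `κ + 2p` independent exponents, then `κ + p ≤ m`; if `κ + p = m`, then
every solution arises from one of the `p` given ones by one of the six symmetries.
-/

set_option autoImplicit false

namespace Q123.US

open Complex

variable {m : ℕ} {lam : Fin m → ℂ}

/-- a family of algebraic monomials and of solutions with independent exponents -/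
structure Fam {m : ℕ} (lam : Fin m → ℂ) {ι J : Type*} (mono : ι → E m) (g h : J → ℂ)
    (u v : J → E m) : Prop where
  alg : ∀ i, IsAlgebraic ℚ (mono i).2 ∧ IsAlgebraic ℚ (exp (ell lam (mono i)))
  sol : ∀ j, Sol lam (g j) (h j) (u j) (v j)
  indep : LinearIndependent ℚ (Sum.elim mono (Sum.elim u v))

section gen

variable {ι J : Type*} [Fintype ι] [Fintype J] [DecidableEq ι] [DecidableEq J]
  {mono : ι → E m} {g h : J → ℂ} {u v : J → E m}

/-- the coefficients of the known relations -/
def Z (g h : J → ℂ) : ι ⊕ J → ι ⊕ J ⊕ J → ℂ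
  | .inl i, .inl i' => if i' = i then 1 else 0
  | .inl _, .inr _ => 0
  | .inr _, .inl _ => 0
  | .inr j, .inr (.inl j') => if j' = j then g j else 0
  | .inr j, .inr (.inr j') => if j' = j then h j else 0

theorem Z_inl (g h : J → ℂ) (i : ι) (F : ι ⊕ J ⊕ J → ℂ) :
    ∑ k, Z g h (.inl i) k * F k = F (.inl i) := by
  rw [Fintype.sum_sum_type]
  simp [Z]

theorem Z_inr (g h : J → ℂ) (j : J) (F : ι ⊕ J ⊕ J → ℂ) :
    ∑ k, Z (ι := ι) g h (.inr j) k * F k = g j * F (.inr (.inl j)) + h j * F (.inr (.inr j)) := by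
  rw [Fintype.sum_sum_type, Fintype.sum_sum_type]
  simp [Z]

theorem Fam.rel (H : Fam lam mono g h u v) (x : ι ⊕ J) (D : Derivation ℚ ℂ ℂ) :
    ∑ k, Z g h x k * dl D (ell lam (Sum.elim mono (Sum.elim u v) k)) = 0 := by
  rcases x with i | j
  · rw [Z_inl]
    change dl D (ell lam (mono i)) = 0
    rw [dl_apply, der_alg D (H.alg i).2, zero_div]
  · rw [Z_inr]
    exact (H.sol j).der D

theorem Fam.alg_snd (H : Fam lam mono g h u v) (k : ι ⊕ J ⊕ J) :
    IsAlgebraic ℚ (Sum.elim mono (Sum.elim u v) k).2 := by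
  rcases k with i | j | j
  · exact (H.alg i).1
  · exact (H.sol j).repg.1
  · exact (H.sol j).reph.1

theorem Z_indep (H : Fam lam mono g h u v) (c : ι ⊕ J → ℂ)
    (hc : ∀ f : E m →ₗ[ℚ] ℚ,
      ∑ x, c x * ∑ k, Z g h x k * (f (Sum.elim mono (Sum.elim u v) k) : ℂ) = 0) : c = 0 := by
  have h1 := coeff_zero H.indep (Sum.elim (fun i => c (.inl i))
    (Sum.elim (fun j => c (.inr j) * g j) (fun j => c (.inr j) * h j))) (by
      intro f
      rw [← hc f, Fintype.sum_sum_type, Fintype.sum_sum_type, Fintype.sum_sum_type]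
      simp only [Z_inl, Z_inr, Sum.elim_inl, Sum.elim_inr, mul_add, Finset.sum_add_distrib,
        mul_assoc])
  ext x
  rcases x with i | j
  · exact congrFun h1 (.inl i)
  · have := congrFun h1 (.inr (.inl j))
    simp only [Sum.elim_inl, Sum.elim_inr, Pi.zero_apply] at this
    exact (mul_eq_zero.mp this).resolve_right (H.sol j).repg.ne_zero

/-- **The number of independent monomials and solutions.** -/
theorem card_le (H : Fam lam mono g h u v) : Fintype.card ι + Fintype.card J ≤ m := by
  by_contra hcon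
  push Not at hcon
  obtain ⟨c, hc0, hc⟩ := exists_dep (ι := ι ⊕ J) (by rwa [Fintype.card_sum])
    (Sum.elim mono (Sum.elim u v)) H.alg_snd (Z g h) H.rel
  exact hc0 (Z_indep H c hc)

/-- In the extreme case every relation is a combination of the known ones. -/
theorem extra (H : Fam lam mono g h u v) (hm : Fintype.card ι + Fintype.card J = m)
    {k' : Type*} [Fintype k'] (w' : k' → E m) (hw' : ∀ j, IsAlgebraic ℚ (w' j).2) (z0 : k' → ℂ)
    (hz0 : ∀ D : Derivation ℚ ℂ ℂ, ∑ j, z0 j * dl D (ell lam (w' j)) = 0) :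
    ∃ (ν : ι → ℂ) (μ : J → ℂ), ∀ f : E m →ₗ[ℚ] ℚ, ∑ j, z0 j * (f (w' j) : ℂ) =
      ∑ i, ν i * (f (mono i) : ℂ) + ∑ j, μ j * (g j * (f (u j) : ℂ) + h j * (f (v j) : ℂ)) := by
  obtain ⟨c, hc0, hc⟩ := exists_dep (lam := lam) (ι := Option (ι ⊕ J)) (k := (ι ⊕ J ⊕ J) ⊕ k')
    (by rw [Fintype.card_option, Fintype.card_sum]; omega)
    (Sum.elim (Sum.elim mono (Sum.elim u v)) w') (by
      rintro (k | k)
      · exact H.alg_snd k
      · exact hw' k)
    (fun x => match x with
      | none => Sum.elim 0 z0
      | some x => Sum.elim (Z g h x) 0) (by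
      intro x D
      rw [Fintype.sum_sum_type]
      rcases x with _ | x
      · simpa using hz0 D
      · simpa using H.rel x D)
  have hc' : ∀ f : E m →ₗ[ℚ] ℚ, c none * ∑ j, z0 j * (f (w' j) : ℂ) +
      ∑ x : ι ⊕ J, c (some x) * ∑ k, Z g h x k * (f (Sum.elim mono (Sum.elim u v) k) : ℂ) = 0 := by
    intro f
    have h1 := hc f
    rw [Fintype.sum_option] at h1
    simp only [Fintype.sum_sum_type (α₁ := ι ⊕ J ⊕ J), Sum.elim_inl, Sum.elim_inr, Pi.zero_apply,
      zero_mul, Finset.sum_const_zero, zero_add, add_zero] at h1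
    exact h1
  have hn : c none ≠ 0 := by
    intro h0
    apply hc0
    have h1 : (fun x => c (some x)) = 0 := Z_indep H _ (by
      intro f
      have := hc' f
      rwa [h0, zero_mul, zero_add] at this)
    ext x
    rcases x with _ | x
    · exact h0
    · exact congrFun h1 x
  refine ⟨fun i => -(c none)⁻¹ * c (some (.inl i)), fun j => -(c none)⁻¹ * c (some (.inr j)),
    fun f => ?_⟩
  have h1 := hc' f
  rw [Fintype.sum_sum_type] at h1
  simp only [Z_inl, Z_inr, Sum.elim_inl, Sum.elim_inr] at h1
  have h2 : ∑ j, z0 j * (f (w' j) : ℂ) = -(c none)⁻¹ * (∑ i, c (some (.inl i)) * (f (mono i) : ℂ) +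
      ∑ j, c (some (.inr j)) * (g j * (f (u j) : ℂ) + h j * (f (v j) : ℂ))) := by
    field_simp
    linear_combination h1
  rw [h2, mul_add, Finset.mul_sum, Finset.mul_sum]
  simp only [mul_assoc]

/-- The elements `g j` are algebraically independent in the extreme case. -/
theorem exists_der_single (H : Fam lam mono g h u v) (hm : Fintype.card ι + Fintype.card J = m)
    (i : J) : ∃ D : Derivation ℚ ℂ ℂ, ∀ j, D (g j) = if j = i then 1 else 0 := by
  let Φ : Derivation ℚ ℂ ℂ →ₗ[ℂ] (J → ℂ) :=
    { toFun := fun D j => D (g j)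
      map_add' := by intro D D'; ext j; rfl
      map_smul' := by intro c D; ext j; rfl }
  have hmem : (fun j => if j = i then (1 : ℂ) else 0) ∈ LinearMap.range Φ := by
    by_contra hcon
    obtain ⟨F, hF1, hF2⟩ := Submodule.exists_dual_map_eq_bot_of_notMem hcon inferInstance
    have hF3 : ∀ D, F (Φ D) = 0 := by
      intro D
      have : F (Φ D) ∈ Submodule.map F (LinearMap.range Φ) :=
        Submodule.mem_map_of_mem (LinearMap.mem_range_self _ _)
      rw [hF2, Submodule.mem_bot] at this
      exact this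
    have hFe : ∀ x : J → ℂ, F x = ∑ j, F (Pi.single j 1) * x j := by
      intro x
      conv_lhs => rw [pi_eq_sum_univ' x]
      rw [map_sum]
      refine Finset.sum_congr rfl fun j _ => ?_
      rw [map_smul, smul_eq_mul, mul_comm]
    obtain ⟨ν, μ, hνμ⟩ := extra H hm u (fun j => (H.sol j).repg.1)
      (fun j => F (Pi.single j 1) * g j) (by
        intro D
        rw [← hF3 D, hFe]
        refine Finset.sum_congr rfl fun j _ => ?_
        change _ = F (Pi.single j 1) * D (g j)
        rw [(H.sol j).repg.der D, mul_assoc])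
    have h1 := coeff_zero H.indep (Sum.elim ν
      (Sum.elim (fun j => μ j * g j - F (Pi.single j 1) * g j) (fun j => μ j * h j))) (by
        intro f
        rw [Fintype.sum_sum_type, Fintype.sum_sum_type]
        simp only [Sum.elim_inl, Sum.elim_inr, sub_mul, Finset.sum_sub_distrib]
        have h2 := hνμ f
        simp only [mul_add, Finset.sum_add_distrib, ← mul_assoc] at h2
        linear_combination -h2)
    have hμ : ∀ j, μ j = 0 := by
      intro j
      have := congrFun h1 (.inr (.inr j))
      simp only [Sum.elim_inr, Pi.zero_apply] at this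
      exact (mul_eq_zero.mp this).resolve_right (H.sol j).reph.ne_zero
    apply hF1
    rw [hFe]
    refine Finset.sum_eq_zero fun j _ => ?_
    have := congrFun h1 (.inr (.inl j))
    simp only [Sum.elim_inl, Sum.elim_inr, Pi.zero_apply, hμ j, zero_mul, zero_sub,
      neg_eq_zero] at this
    rw [(mul_eq_zero.mp this).resolve_right (H.sol j).repg.ne_zero, zero_mul]
  obtain ⟨D, hD⟩ := hmem
  exact ⟨D, fun j => congrFun hD j⟩

/-- **All solutions** in the extreme case. -/
theorem mem_orbit (H : Fam lam mono g h u v) (hm : Fintype.card ι + Fintype.card J = m)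
    {g0 h0 : ℂ} {u0 v0 : E m} (S0 : Sol lam g0 h0 u0 v0) : ∃ j, Orbit (g j) (h j) g0 h0 := by
  set W : ι ⊕ J ⊕ J → E m := Sum.elim mono (Sum.elim u v) with hW
  obtain ⟨ν, μ, hνμ⟩ := extra H hm (fun b : Bool => if b then u0 else v0) (by
    intro b
    cases b
    · exact S0.reph.1
    · exact S0.repg.1) (fun b => if b then g0 else h0) (by
    intro D
    rw [Fintype.sum_bool]
    exact S0.der D)
  have hrel : ∀ f : E m →ₗ[ℚ] ℚ, g0 * (f u0 : ℂ) + h0 * (f v0 : ℂ) =
      ∑ i, ν i * (f (mono i) : ℂ) + ∑ j, μ j * (g j * (f (u j) : ℂ) + h j * (f (v j) : ℂ)) := by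
    intro f
    have := hνμ f
    rw [Fintype.sum_bool] at this
    exact this
  have hspan : u0 ∈ Submodule.span ℚ (Set.range W) ∧ v0 ∈ Submodule.span ℚ (Set.range W) := by
    have key : ∀ f : E m →ₗ[ℚ] ℚ, Submodule.map f (Submodule.span ℚ (Set.range W)) = ⊥ →
        f u0 = 0 ∧ f v0 = 0 := by
      intro f hf
      have hz : ∀ k, f (W k) = 0 := by
        intro k
        have : f (W k) ∈ Submodule.map f (Submodule.span ℚ (Set.range W)) :=
          Submodule.mem_map_of_mem (Submodule.subset_span ⟨k, rfl⟩)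
        rw [hf, Submodule.mem_bot] at this
        exact this
      have h1 := hrel f
      have e1 : ∀ i, f (mono i) = 0 := fun i => hz (.inl i)
      have e2 : ∀ j, f (u j) = 0 := fun j => hz (.inr (.inl j))
      have e3 : ∀ j, f (v j) = 0 := fun j => hz (.inr (.inr j))
      simp only [e1, e2, e3, Rat.cast_zero, mul_zero, add_zero, Finset.sum_const_zero] at h1
      exact S0.irr _ _ h1
    constructor
    · by_contra hcon
      obtain ⟨f, hf1, hf2⟩ := Submodule.exists_dual_map_eq_bot_of_notMem hcon inferInstance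
      exact hf1 (key f hf2).1
    · by_contra hcon
      obtain ⟨f, hf1, hf2⟩ := Submodule.exists_dual_map_eq_bot_of_notMem hcon inferInstance
      exact hf1 (key f hf2).2
  obtain ⟨x, hx⟩ := (Submodule.mem_span_range_iff_exists_fun ℚ).mp hspan.1
  obtain ⟨y, hy⟩ := (Submodule.mem_span_range_iff_exists_fun ℚ).mp hspan.2
  have hcoef := coeff_zero H.indep (fun k => g0 * (x k : ℂ) + h0 * (y k : ℂ) -
    Sum.elim ν (Sum.elim (fun j => μ j * g j) (fun j => μ j * h j)) k) (by
      intro f
      have e1 : (f u0 : ℂ) = ∑ k, (x k : ℂ) * (f (W k) : ℂ) := by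
        rw [← hx, map_sum]
        push_cast
        refine Finset.sum_congr rfl fun k _ => ?_
        rw [map_smul, smul_eq_mul]
        push_cast
        rfl
      have e2 : (f v0 : ℂ) = ∑ k, (y k : ℂ) * (f (W k) : ℂ) := by
        rw [← hy, map_sum]
        push_cast
        refine Finset.sum_congr rfl fun k _ => ?_
        rw [map_smul, smul_eq_mul]
        push_cast
        rfl
      have e3 := hrel f
      rw [e1, e2, Finset.mul_sum, Finset.mul_sum, ← Finset.sum_add_distrib] at e3
      have e4 : ∑ k, Sum.elim ν (Sum.elim (fun j => μ j * g j) (fun j => μ j * h j)) k *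
          (f (W k) : ℂ) = ∑ i, ν i * (f (mono i) : ℂ) +
          ∑ j, μ j * (g j * (f (u j) : ℂ) + h j * (f (v j) : ℂ)) := by
        rw [Fintype.sum_sum_type, Fintype.sum_sum_type]
        simp only [hW, Sum.elim_inl, Sum.elim_inr, mul_add, Finset.sum_add_distrib, mul_assoc]
      simp only [sub_mul, Finset.sum_sub_distrib]
      rw [← hW, e4, ← e3, sub_eq_zero]
      refine Finset.sum_congr rfl fun k _ => ?_
      ring)
  have hgj : ∀ j, g0 * (x (.inr (.inl j)) : ℂ) + h0 * (y (.inr (.inl j)) : ℂ) = μ j * g j := by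
    intro j
    have := congrFun hcoef (.inr (.inl j))
    simp only [Sum.elim_inl, Sum.elim_inr, Pi.zero_apply] at this
    linear_combination this
  have hhj : ∀ j, g0 * (x (.inr (.inr j)) : ℂ) + h0 * (y (.inr (.inr j)) : ℂ) = μ j * h j := by
    intro j
    have := congrFun hcoef (.inr (.inr j))
    simp only [Sum.elim_inr, Pi.zero_apply] at this
    linear_combination this
  -- coordinates vanish if `μ j = 0`
  have hzero : ∀ j, μ j = 0 → (x (.inr (.inl j)) = 0 ∧ y (.inr (.inl j)) = 0) ∧
      (x (.inr (.inr j)) = 0 ∧ y (.inr (.inr j)) = 0) := by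
    intro j hj
    have e1 := hgj j
    have e2 := hhj j
    rw [hj, zero_mul] at e1 e2
    exact ⟨S0.irr _ _ e1, S0.irr _ _ e2⟩
  have h00 : h0 = 1 - g0 := by rw [← S0.sum]; ring
  -- two nonzero coefficients are impossible
  have huniq : ∀ i j, i ≠ j → μ i ≠ 0 → μ j = 0 := by
    intro i j hij hi
    by_contra hj
    obtain ⟨D, hD⟩ := exists_der_single H hm i
    have hDi : D (g i) = 1 := by rw [hD, if_pos rfl]
    have hDj : D (g j) = 0 := by rw [hD, if_neg (Ne.symm hij)]
    have hhi : h i = 1 - g i := by rw [← (H.sol i).sum]; ring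
    have hhj' : h j = 1 - g j := by rw [← (H.sol j).sum]; ring
    have hDrat : ∀ q : ℚ, D (q : ℂ) = 0 := fun q => by
      have := D.map_algebraMap q
      simpa using this
    -- the relation between `g0` and `g l`
    have hM : ∀ l, (g0 * (x (.inr (.inl l)) : ℂ) + (1 - g0) * (y (.inr (.inl l)) : ℂ)) * h l =
        (g0 * (x (.inr (.inr l)) : ℂ) + (1 - g0) * (y (.inr (.inr l)) : ℂ)) * g l := by
      intro l
      rw [← h00, hgj l, hhj l]
      ring
    have hMj := congrArg D (hM j)
    rw [hhj'] at hMj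
    have hMj' : D g0 * (((x (.inr (.inl j)) : ℂ) - y (.inr (.inl j))) * (1 - g j) -
        ((x (.inr (.inr j)) : ℂ) - y (.inr (.inr j))) * g j) = 0 := by
      simp only [Derivation.leibniz, map_sub, map_add, hDrat, hDj, smul_eq_mul,
        Derivation.map_one_eq_zero] at hMj
      linear_combination hMj
    have hne : ((x (.inr (.inl j)) : ℂ) - y (.inr (.inl j))) * (1 - g j) -
        ((x (.inr (.inr j)) : ℂ) - y (.inr (.inr j))) * g j ≠ 0 := by
      intro h1
      have h2 := (H.sol j).irr (-(x (.inr (.inr j)) - y (.inr (.inr j))))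
        (x (.inr (.inl j)) - y (.inr (.inl j))) (by
          rw [hhj']
          push_cast
          linear_combination h1)
      have e1 : x (.inr (.inr j)) = y (.inr (.inr j)) := by linarith [h2.1]
      have e2 : x (.inr (.inl j)) = y (.inr (.inl j)) := by linarith [h2.2]
      have e3 := hgj j
      have e4 := hhj j
      rw [e2, h00] at e3
      rw [e1, h00] at e4
      have e5 : (y (.inr (.inl j)) : ℂ) = μ j * g j := by linear_combination e3
      have e6 : (y (.inr (.inr j)) : ℂ) = μ j * h j := by linear_combination e4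
      have e7 := (H.sol j).irr (-(y (.inr (.inr j)))) (y (.inr (.inl j))) (by
        push_cast
        rw [e5, e6]
        ring)
      rw [e7.2] at e5
      apply hj
      have : μ j * g j = 0 := by rw [← e5]; simp
      exact (mul_eq_zero.mp this).resolve_right (H.sol j).repg.ne_zero
    have hD0 : D g0 = 0 := (mul_eq_zero.mp hMj').resolve_right hne
    have hMi := congrArg D (hM i)
    rw [hhi] at hMi
    simp only [Derivation.leibniz, map_sub, map_add, hDrat, hDi, hD0, smul_eq_mul,
      Derivation.map_one_eq_zero] at hMi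
    have e3 := hgj i
    have e4 := hhj i
    rw [h00] at e3 e4
    apply hi
    have e8 : μ i * (g i + h i) = 0 := by
      linear_combination -hMi - e3 - e4
    rwa [(H.sol i).sum, mul_one] at e8
  -- derivations of the monomials vanish
  have hmono : ∀ (D : Derivation ℚ ℂ ℂ) (i : ι), dl D (ell lam (mono i)) = 0 := by
    intro D i
    rw [dl_apply, der_alg D (H.alg i).2, zero_div]
  have hdl : ∀ (D : Derivation ℚ ℂ ℂ) (z : ι ⊕ J ⊕ J → ℚ), dl D (ell lam (∑ k, z k • W k)) =
      ∑ j, ((z (.inr (.inl j)) : ℂ) * dl D (ell lam (u j)) +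
        (z (.inr (.inr j)) : ℂ) * dl D (ell lam (v j))) := by
    intro D z
    rw [map_sum, map_sum, Fintype.sum_sum_type, Fintype.sum_sum_type, Finset.sum_add_distrib]
    have e1 : ∑ i, dl D (ell lam (z (.inl i) • W (.inl i))) = 0 := by
      refine Finset.sum_eq_zero fun i _ => ?_
      rw [map_smul, map_smul]
      change z (.inl i) • dl D (ell lam (mono i)) = 0
      rw [hmono, smul_zero]
    rw [e1, zero_add]
    congr 1
    · refine Finset.sum_congr rfl fun j _ => ?_
      rw [map_smul, map_smul, Algebra.smul_def]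
      rfl
    · refine Finset.sum_congr rfl fun j _ => ?_
      rw [map_smul, map_smul, Algebra.smul_def]
      rfl
  have hex : ∃ j, μ j ≠ 0 := by
    by_contra hcon
    push Not at hcon
    apply S0.trans
    apply alg_of_der
    intro D
    rw [S0.repg.der D, ← hx, hdl]
    rw [Finset.sum_eq_zero (fun j _ => ?_), mul_zero]
    obtain ⟨⟨h1, -⟩, ⟨h2, -⟩⟩ := hzero j (hcon j)
    rw [h1, h2]
    simp
  obtain ⟨j, hj⟩ := hex
  refine ⟨j, orbit_of_coords (H.sol j) S0 (x (.inr (.inl j))) (x (.inr (.inr j)))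
    (y (.inr (.inl j))) (y (.inr (.inr j))) (fun D => ?_) (fun D => ?_)⟩
  · rw [← hx, hdl, Finset.sum_eq_single j]
    · intro i _ hi
      obtain ⟨⟨h1, -⟩, ⟨h2, -⟩⟩ := hzero i (huniq j i (Ne.symm hi) hj)
      rw [h1, h2]
      simp
    · intro h1
      exact absurd (Finset.mem_univ j) h1
  · rw [← hy, hdl, Finset.sum_eq_single j]
    · intro i _ hi
      obtain ⟨⟨-, h1⟩, ⟨-, h2⟩⟩ := hzero i (huniq j i (Ne.symm hi) hj)
      rw [h1, h2]
      simp
    · intro h1
      exact absurd (Finset.mem_univ j) h1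

end gen

end Q123.US
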