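import Mathlib
import Pool.Agent.Q123.US.Gen

/-!
# The number of solutions
-/

set_option autoImplicit false

namespace Q123.US

open Complex

variable {m : ℕ} {lam : Fin m → ℂ}

/-- the group of all numbers `α e^{r + ∑ s_j lam_j}`, `α ≠ 0` and `r` algebraic, `s` rational -/
def Gam {m : ℕ} (lam : Fin m → ℂ) : Set ℂ :=
  {z | ∃ (a r : ℂ) (s : Fin m → ℚ), IsAlgebraic ℚ a ∧ a ≠ 0 ∧ IsAlgebraic ℚ r ∧
    z = a * exp (∑ j, (s j : ℂ) * lam j + r)}

theorem mem_Gam {z : ℂ} : z ∈ Gam lam ↔ ∃ w : E m, Rep lam z w := by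
  constructor
  · rintro ⟨a, r, s, ha, ha0, hr, rfl⟩
    exact ⟨(s, r), hr, a, ha, ha0, by rw [ell_apply]⟩
  · rintro ⟨w, hw, a, ha, ha0, rfl⟩
    exact ⟨a, w.2, w.1, ha, ha0, hw, by rw [ell_apply]⟩

/-- the solutions of `g + h = 1` in the group which are not algebraic -/
def Sols {m : ℕ} (lam : Fin m → ℂ) : Set (ℂ × ℂ) :=
  {p | p.1 ∈ Gam lam ∧ p.2 ∈ Gam lam ∧ p.1 + p.2 = 1 ∧ Transcendental ℚ p.1}

theorem mem_Sols {p : ℂ × ℂ} : p ∈ Sols lam ↔ ∃ u v : E m, Sol lam p.1 p.2 u v := by
  constructor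
  · rintro ⟨h1, h2, h3, h4⟩
    obtain ⟨u, hu⟩ := mem_Gam.mp h1
    obtain ⟨v, hv⟩ := mem_Gam.mp h2
    exact ⟨u, v, h3, h4, hu, hv⟩
  · rintro ⟨u, v, S⟩
    exact ⟨mem_Gam.mpr ⟨u, S.repg⟩, mem_Gam.mpr ⟨v, S.reph⟩, S.sum, S.trans⟩

/-- the six values -/
noncomputable def orb (g : ℂ) : Fin 6 → ℂ := ![g, 1 - g, 1 / g, 1 - 1 / g, 1 / (1 - g), 1 - 1 / (1 - g)]

theorem no_quad {g : ℂ} (hg : Transcendental ℚ g) (A B C : ℚ) (hne : ¬ (A = 0 ∧ B = 0 ∧ C = 0)) :
    (A : ℂ) * g ^ 2 + B * g + C ≠ 0 := by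
  intro h0
  set P : Polynomial ℚ := Polynomial.C A * Polynomial.X ^ 2 + Polynomial.C B * Polynomial.X +
    Polynomial.C C with hP
  have h1 : Polynomial.aeval g P = 0 := by
    rw [hP]
    simp only [map_mul, map_add, map_pow, Polynomial.aeval_C, Polynomial.aeval_X, eq_ratCast]
    exact h0
  have hP0 : P = 0 := by
    by_contra hne
    exact hg ⟨P, hne, h1⟩
  have hev : ∀ x : ℚ, A * x ^ 2 + B * x + C = 0 := by
    intro x
    have := congrArg (Polynomial.eval x) hP0
    rw [hP] at this
    simpa using this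
  have e0 := hev 0
  have e1 := hev 1
  have e2 := hev (-1)
  apply hne
  refine ⟨by linarith, by linarith, by linarith⟩

theorem orb_lt {g : ℂ} (hg : Transcendental ℚ g) (a b : Fin 6) (hab : a < b) :
    orb g a ≠ orb g b := by
  have hg0 : g ≠ 0 := by rintro rfl; exact hg isAlgebraic_zero
  have hg1 : 1 - g ≠ 0 := by
    intro h
    apply hg
    have : g = 1 := by linear_combination -h
    rw [this]
    exact isAlgebraic_one
  have nq := fun (A B C : ℚ) (hne : ¬ (A = 0 ∧ B = 0 ∧ C = 0)) => no_quad hg A B C hne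
  intro h
  fin_cases a <;> fin_cases b <;> first | exact absurd hab (by decide) | skip
  · change g = 1 - g at h
    exact nq 0 2 (-1) (by norm_num) (by push_cast; linear_combination h)
  · change g = 1 / g at h
    field_simp at h
    exact nq 1 0 (-1) (by norm_num) (by push_cast; linear_combination h)
  · change g = 1 - 1 / g at h
    field_simp at h
    exact nq 1 (-1) 1 (by norm_num) (by push_cast; linear_combination h)
  · change g = 1 / (1 - g) at h
    field_simp at h
    exact nq (-1) 1 (-1) (by norm_num) (by push_cast; linear_combination h)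
  · change g = 1 - 1 / (1 - g) at h
    field_simp at h
    exact nq (-1) 2 0 (by norm_num) (by push_cast; linear_combination h)
  · change 1 - g = 1 / g at h
    field_simp at h
    exact nq (-1) 1 (-1) (by norm_num) (by push_cast; linear_combination h)
  · change 1 - g = 1 - 1 / g at h
    field_simp at h
    exact nq 1 0 (-1) (by norm_num) (by push_cast; linear_combination -h)
  · change 1 - g = 1 / (1 - g) at h
    field_simp at h
    exact nq 1 (-2) 0 (by norm_num) (by push_cast; linear_combination h)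
  · change 1 - g = 1 - 1 / (1 - g) at h
    field_simp at h
    exact nq 1 (-1) 1 (by norm_num) (by push_cast; linear_combination h)
  · change 1 / g = 1 - 1 / g at h
    field_simp at h
    exact nq 0 (-1) 2 (by norm_num) (by push_cast; linear_combination h)
  · change 1 / g = 1 / (1 - g) at h
    field_simp at h
    exact nq 0 (-2) 1 (by norm_num) (by push_cast; linear_combination h)
  · change 1 / g = 1 - 1 / (1 - g) at h
    field_simp at h
    exact nq 1 (-1) 1 (by norm_num) (by push_cast; linear_combination h)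
  · change 1 - 1 / g = 1 / (1 - g) at h
    field_simp at h
    exact nq (-1) 1 (-1) (by norm_num) (by push_cast; linear_combination h)
  · change 1 - 1 / g = 1 - 1 / (1 - g) at h
    field_simp at h
    exact nq 0 2 (-1) (by norm_num) (by push_cast; linear_combination h)
  · change 1 / (1 - g) = 1 - 1 / (1 - g) at h
    field_simp at h
    exact nq 0 1 1 (by norm_num) (by push_cast; linear_combination h)

theorem orb_inj {g : ℂ} (hg : Transcendental ℚ g) : Function.Injective (orb g) := by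
  intro a b hab
  rcases lt_trichotomy a b with h | h | h
  · exact absurd hab (orb_lt hg a b h)
  · exact h
  · exact absurd hab.symm (orb_lt hg b a h)

namespace Sol

variable {g h : ℂ} {u v : E m}

theorem inv (S : Sol lam g h u v) : Sol lam (1 / g) (-h / g) (-u) (v - u) := by
  have hg := S.repg.ne_zero
  refine ⟨?_, ?_, ?_, ?_⟩
  · field_simp
    linear_combination -S.sum
  · intro hh
    apply S.trans
    rw [one_div] at hh
    have := hh.inv
    rwa [inv_inv] at this
  · rw [one_div]; exact S.repg.inv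
  · rw [neg_div]; exact (S.reph.div S.repg).neg

theorem exists_orb (S : Sol lam g h u v) (k : Fin 6) :
    ∃ u' v' : E m, Sol lam (orb g k) (1 - orb g k) u' v' := by
  have hh : h = 1 - g := by rw [← S.sum]; ring
  subst hh
  have hg := S.repg.ne_zero
  have hh := S.reph.ne_zero
  have key : ∀ {a b : ℂ} {u' v' : E m}, Sol lam a b u' v' → orb g k = a →
      ∃ u' v' : E m, Sol lam (orb g k) (1 - orb g k) u' v' := by
    intro a b u' v' S' he
    refine ⟨u', v', ?_⟩
    rw [he]
    have : 1 - a = b := by rw [← S'.sum]; ring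
    rw [this]
    exact S'
  fin_cases k
  · exact key S rfl
  · exact key S.swap rfl
  · exact key S.inv rfl
  · refine key S.inv.swap ?_
    change 1 - 1 / g = -(1 - g) / g
    field_simp
    ring
  · exact key S.swap.inv rfl
  · refine key S.swap.inv.swap ?_
    change 1 - 1 / (1 - g) = -g / (1 - g)
    field_simp
    ring

theorem orb_of_orbit (S : Sol lam g h u v) {g0 h0 : ℂ} (hO : Orbit g h g0 h0) :
    ∃ k, g0 = orb g k := by
  have hh : h = 1 - g := by rw [← S.sum]; ring
  subst hh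
  have hg := S.repg.ne_zero
  have hh := S.reph.ne_zero
  rcases hO with ⟨H, -⟩ | ⟨H, -⟩ | ⟨H, -⟩ | ⟨H, -⟩ | ⟨H, -⟩ | ⟨H, -⟩
  · exact ⟨0, H⟩
  · exact ⟨1, H⟩
  · exact ⟨2, H⟩
  · refine ⟨3, H.trans ?_⟩
    change -(1 - g) / g = 1 - 1 / g
    field_simp
    ring
  · exact ⟨4, H⟩
  · refine ⟨5, H.trans ?_⟩
    change -g / (1 - g) = 1 - 1 / (1 - g)
    field_simp
    ring

end Sol

/-- the derivation of the six functions -/
theorem der_orb {g : ℂ} (hg0 : g ≠ 0) (hg1 : 1 - g ≠ 0) (k : Fin 6) :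
    ∃ c : ℂ, c ≠ 0 ∧ ∀ D : Derivation ℚ ℂ ℂ, D (orb g k) = c * D g := by
  have hinv : ∀ (D : Derivation ℚ ℂ ℂ) (z : ℂ), z ≠ 0 → D (1 / z) = -(1 / z ^ 2) * D z := by
    intro D z hz
    rw [one_div, Derivation.leibniz_inv, smul_eq_mul]
    field_simp
  have hg2 : -(1 / g ^ 2) ≠ 0 := neg_ne_zero.mpr (one_div_ne_zero (pow_ne_zero 2 hg0))
  have hg3 : (1 / (1 - g) ^ 2) ≠ 0 := one_div_ne_zero (pow_ne_zero 2 hg1)
  fin_cases k
  · exact ⟨1, one_ne_zero, fun D => (one_mul _).symm⟩
  · refine ⟨-1, by norm_num, fun D => ?_⟩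
    change D (1 - g) = _
    rw [map_sub, Derivation.map_one_eq_zero]
    ring
  · refine ⟨-(1 / g ^ 2), hg2, fun D => ?_⟩
    exact hinv D g hg0
  · refine ⟨1 / g ^ 2, by simpa using hg2, fun D => ?_⟩
    change D (1 - 1 / g) = _
    rw [map_sub, Derivation.map_one_eq_zero, hinv D g hg0]
    ring
  · refine ⟨1 / (1 - g) ^ 2, hg3, fun D => ?_⟩
    change D (1 / (1 - g)) = _
    rw [hinv D _ hg1, map_sub, Derivation.map_one_eq_zero]
    ring
  · refine ⟨-(1 / (1 - g) ^ 2), by simpa using hg3, fun D => ?_⟩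
    change D (1 - 1 / (1 - g)) = _
    rw [map_sub, hinv D _ hg1, map_sub, Derivation.map_one_eq_zero]
    ring

/-- **The set of all solutions** in the extreme case. -/
theorem Sols_eq {ι J : Type*} [Fintype ι] [Fintype J] [DecidableEq ι] [DecidableEq J]
    {mono : ι → E m} {g h : J → ℂ} {u v : J → E m} (H : Fam lam mono g h u v)
    (hm : Fintype.card ι + Fintype.card J = m) :
    Sols lam = Set.range (fun x : J × Fin 6 => (orb (g x.1) x.2, 1 - orb (g x.1) x.2)) := by
  ext ⟨g0, h0⟩
  constructor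
  · intro hp
    obtain ⟨u0, v0, S0⟩ := mem_Sols.mp hp
    obtain ⟨j, hj⟩ := mem_orbit H hm S0
    obtain ⟨k, hk⟩ := (H.sol j).orb_of_orbit hj
    refine ⟨(j, k), ?_⟩
    change (orb (g j) k, 1 - orb (g j) k) = (g0, h0)
    rw [← hk]
    have := S0.sum
    simp only at this
    rw [← this]
    simp
  · rintro ⟨⟨j, k⟩, hx⟩
    rw [← hx]
    obtain ⟨u', v', S'⟩ := (H.sol j).exists_orb k
    exact mem_Sols.mpr ⟨u', v', S'⟩

/-- **The number of solutions** in the extreme case. -/
theorem encard_Sols {ι J : Type*} [Fintype ι] [Fintype J] [DecidableEq ι] [DecidableEq J]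
    {mono : ι → E m} {g h : J → ℂ} {u v : J → E m} (H : Fam lam mono g h u v)
    (hm : Fintype.card ι + Fintype.card J = m) :
    (Sols lam).encard = 6 * Fintype.card J := by
  rw [Sols_eq H hm]
  have hinj : Function.Injective
      (fun x : J × Fin 6 => (orb (g x.1) x.2, 1 - orb (g x.1) x.2)) := by
    rintro ⟨i, a⟩ ⟨j, b⟩ hab
    have hab' : orb (g i) a = orb (g j) b := (Prod.ext_iff.mp hab).1
    by_cases hij : i = j
    · subst hij
      rw [orb_inj (H.sol i).trans hab']
    · exfalso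
      have hne : ∀ j, g j ≠ 0 ∧ 1 - g j ≠ 0 := by
        intro j
        refine ⟨(H.sol j).repg.ne_zero, ?_⟩
        have : 1 - g j = h j := by rw [← (H.sol j).sum]; ring
        rw [this]
        exact (H.sol j).reph.ne_zero
      obtain ⟨D, hD⟩ := exists_der_single H hm i
      obtain ⟨c, hc, hc1⟩ := der_orb (hne i).1 (hne i).2 a
      obtain ⟨d, hd, hd1⟩ := der_orb (hne j).1 (hne j).2 b
      have h1 := congrArg D hab'
      rw [hc1, hd1, hD, hD, if_pos rfl, if_neg (Ne.symm hij), mul_one, mul_zero] at h1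
      exact hc h1
  rw [← Set.image_univ, hinj.encard_image, Set.encard_univ, ENat.card_eq_coe_fintype_card,
    Fintype.card_prod, Fintype.card_fin, mul_comm]
  push_cast
  rfl

end Q123.US
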