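import Mathlib
import Pool.Agent.Q123.US.Count

/-!
# One number besides the exponentials
-/

set_option autoImplicit false

namespace Q123.US

open Complex

section one

variable {lam : Fin 1 → ℂ} {g h : ℂ} {u v : E 1}

theorem fam_one (S : Sol lam g h u v) :
    Fam lam (ι := Empty) (J := Unit) (fun i => i.elim) (fun _ => g) (fun _ => h) (fun _ => u)
      (fun _ => v) := by
  refine ⟨fun i => i.elim, fun _ => S, ?_⟩
  rw [Fintype.linearIndependent_iff]
  intro c hc
  rw [Fintype.sum_sum_type, Fintype.sum_sum_type] at hc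
  simp only [Finset.univ_eq_empty, Finset.sum_empty, zero_add, Finset.univ_unique,
    Finset.sum_singleton, Sum.elim_inl, Sum.elim_inr] at hc
  obtain ⟨h1, h2⟩ := S.indep _ _ hc
  rintro (i | i | i)
  · exact i.elim
  · exact h1
  · exact h2

/-- no algebraic monomials in the presence of a solution -/
theorem mono_zero (S : Sol lam g h u v) {w : E 1} (hw : IsAlgebraic ℚ w.2)
    (he : IsAlgebraic ℚ (exp (ell lam w))) : w = 0 := by
  by_contra hw0
  have hdl : ∀ D : Derivation ℚ ℂ ℂ, dl D (ell lam w) = 0 := fun D => by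
    rw [dl_apply, der_alg D he, zero_div]
  have H : Fam lam (ι := Unit) (J := Unit) (fun _ => w) (fun _ => g) (fun _ => h) (fun _ => u)
      (fun _ => v) := by
    refine ⟨fun _ => ⟨hw, he⟩, fun _ => S, ?_⟩
    rw [Fintype.linearIndependent_iff]
    intro c hc
    rw [Fintype.sum_sum_type, Fintype.sum_sum_type] at hc
    simp only [Finset.univ_unique, Finset.sum_singleton, Sum.elim_inl, Sum.elim_inr] at hc
    obtain ⟨h1, h2⟩ := S.indep_dl (c (.inr (.inl ()))) (c (.inr (.inr ()))) (by
      intro D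
      have h3 := congrArg (fun y => dl D (ell lam y)) hc
      simp only [map_add, map_smul, map_zero, hdl, smul_zero, zero_add] at h3
      rw [Algebra.smul_def, Algebra.smul_def] at h3
      exact h3)
    have h3 : c (.inl ()) = 0 := by
      have h4 : c (.inl ()) • w + (c (.inr (.inl ())) • u + c (.inr (.inr ())) • v) = 0 := hc
      rw [h1, h2, zero_smul, zero_smul, add_zero, add_zero] at h4
      exact (smul_eq_zero.mp h4).resolve_right hw0
    rintro (i | i | i)
    · exact h3
    · exact h1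
    · exact h2
  have := card_le H
  simp at this

theorem rep_unique (S : Sol lam g h u v) {z : ℂ} {w w' : E 1} (h1 : Rep lam z w)
    (h2 : Rep lam z w') : w = w' := by
  have h3 := h1.div h2
  rw [div_self h1.ne_zero] at h3
  obtain ⟨h4, a, ha, ha0, he⟩ := h3
  have h5 : IsAlgebraic ℚ (exp (ell lam (w - w'))) := by
    have : exp (ell lam (w - w')) = a⁻¹ := by
      rw [eq_comm, inv_eq_iff_eq_inv, eq_comm]
      exact (eq_inv_of_mul_eq_one_left he.symm).symm
    rw [this]
    exact ha.inv
  exact sub_eq_zero.mp (mono_zero S h4 h5)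

/-- exponents of the six solutions -/
theorem exps_of_orbit (S : Sol lam g h u v) {g1 h1 : ℂ} {u1 v1 : E 1} (S1 : Sol lam g1 h1 u1 v1)
    (hO : Orbit g h g1 h1) :
    (g1 = g ∧ h1 = h ∧ u1 = u ∧ v1 = v) ∨ (g1 = h ∧ h1 = g ∧ u1 = v ∧ v1 = u) ∨
    (u1 = -u ∧ v1 = v - u) ∨ (u1 = v - u ∧ v1 = -u) ∨ (u1 = -v ∧ v1 = u - v) ∨
    (u1 = u - v ∧ v1 = -v) := by
  rcases hO with ⟨H1, H2⟩ | ⟨H1, H2⟩ | ⟨H1, H2⟩ | ⟨H1, H2⟩ | ⟨H1, H2⟩ | ⟨H1, H2⟩
  · left
    subst H1; subst H2
    exact ⟨rfl, rfl, rep_unique S S1.repg S.repg, rep_unique S S1.reph S.reph⟩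
  · right; left
    subst H1; subst H2
    exact ⟨rfl, rfl, rep_unique S S1.repg S.reph, rep_unique S S1.reph S.repg⟩
  · right; right; left
    have h3 := S.inv
    rw [← H1, ← H2] at h3
    exact ⟨rep_unique S S1.repg h3.repg, rep_unique S S1.reph h3.reph⟩
  · right; right; right; left
    have h3 := S.inv.swap
    rw [← H1, ← H2] at h3
    exact ⟨rep_unique S S1.repg h3.repg, rep_unique S S1.reph h3.reph⟩
  · right; right; right; right; left
    have h3 := S.swap.inv
    rw [← H1, ← H2] at h3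
    exact ⟨rep_unique S S1.repg h3.repg, rep_unique S S1.reph h3.reph⟩
  · right; right; right; right; right
    have h3 := S.swap.inv.swap
    rw [← H1, ← H2] at h3
    exact ⟨rep_unique S S1.repg h3.repg, rep_unique S S1.reph h3.reph⟩

theorem orbit_one (S : Sol lam g h u v) {g1 h1 : ℂ} {u1 v1 : E 1} (S1 : Sol lam g1 h1 u1 v1) :
    Orbit g h g1 h1 := by
  obtain ⟨-, hj⟩ := mem_orbit (fam_one S) (by simp) S1
  exact hj

theorem encard_one (S : Sol lam g h u v) : (Sols lam).encard = 6 := by
  have := encard_Sols (fam_one S) (by simp)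
  simpa using this

theorem conj_alg {x : ℂ} (hx : IsAlgebraic ℚ x) : IsAlgebraic ℚ ((starRingEnd ℂ) x) := by
  obtain ⟨p, hp, hpx⟩ := hx
  refine ⟨p, hp, ?_⟩
  have h2 := congrArg (starRingEnd ℂ) hpx
  rw [map_zero, Polynomial.aeval_def, Polynomial.hom_eval₂] at h2
  have e : (starRingEnd ℂ).comp (algebraMap ℚ ℂ) = algebraMap ℚ ℂ := Subsingleton.elim _ _
  rw [e] at h2
  rw [Polynomial.aeval_def]
  exact h2

/-- complex conjugation of exponents -/
noncomputable def cj (w : E 1) : E 1 := (w.1, (starRingEnd ℂ) w.2)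

theorem Rep.conj (hl : ∀ j, (starRingEnd ℂ) (lam j) = lam j) {z : ℂ} {w : E 1}
    (hz : Rep lam z w) : Rep lam ((starRingEnd ℂ) z) (cj w) := by
  obtain ⟨h1, a, ha, ha0, rfl⟩ := hz
  refine ⟨conj_alg h1, (starRingEnd ℂ) a, conj_alg ha, by simpa using ha0, ?_⟩
  rw [map_mul, ← exp_conj, ell_apply, ell_apply]
  congr 2
  simp only [map_add, map_sum, map_mul, hl, cj]
  congr 1
  refine Finset.sum_congr rfl fun j _ => ?_
  congr 1
  simp

theorem Sol.conj (hl : ∀ j, (starRingEnd ℂ) (lam j) = lam j) (S : Sol lam g h u v) :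
    Sol lam ((starRingEnd ℂ) g) ((starRingEnd ℂ) h) (cj u) (cj v) := by
  refine ⟨?_, ?_, S.repg.conj hl, S.reph.conj hl⟩
  · rw [← map_add, S.sum, map_one]
  · intro hh
    apply S.trans
    have h3 := conj_alg hh
    rwa [Complex.conj_conj] at h3

/-- the exponent of the extra number occurs -/
theorem fst_ne (S : Sol lam g h u v) : ¬ (u.1 = 0 ∧ v.1 = 0) := by
  rintro ⟨h1, h2⟩
  have key : ∀ φ : ℂ →ₗ[ℚ] ℚ, φ u.2 = 0 ∧ φ v.2 = 0 := by
    intro φ
    obtain ⟨D, hD⟩ := exists_dl ((Algebra.linearMap ℚ ℂ) ∘ₗ φ)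
    have h3 := S.der D
    have e1 : ell lam u = u.2 := by
      rw [ell_apply, h1]; simp
    have e2 : ell lam v = v.2 := by
      rw [ell_apply, h2]; simp
    rw [e1, e2, hD _ S.repg.1, hD _ S.reph.1] at h3
    exact S.irr _ _ h3
  have hu : u.2 = 0 := (Module.forall_dual_apply_eq_zero_iff ℚ u.2).mp fun φ => (key φ).1
  have hu0 : u = 0 := by
    ext j
    · rw [h1]; rfl
    · rw [hu]; rfl
  exact one_ne_zero (S.indep 1 0 (by rw [hu0]; simp)).1

/-- **Reality.** -/
theorem real_cases (hl : ∀ j, (starRingEnd ℂ) (lam j) = lam j) (S : Sol lam g h u v) :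
    ((starRingEnd ℂ) u.2 = u.2 ∧ (starRingEnd ℂ) v.2 = v.2) ∨
    (u.1 = v.1 ∧ v.2 = (starRingEnd ℂ) u.2) ∨
    (u.1 = 0 ∧ u.2 = v.2 - (starRingEnd ℂ) v.2) ∨
    (v.1 = 0 ∧ v.2 = u.2 - (starRingEnd ℂ) u.2) := by
  have hS := S.conj hl
  have hO := orbit_one S hS
  have hcase := exps_of_orbit S hS hO
  have hne := fst_ne S
  have f1 : (cj u).1 = u.1 := rfl
  have f2 : (cj u).2 = (starRingEnd ℂ) u.2 := rfl
  have f3 : (cj v).1 = v.1 := rfl
  have f4 : (cj v).2 = (starRingEnd ℂ) v.2 := rfl
  rcases hcase with ⟨-, -, H1, H2⟩ | ⟨-, -, H1, H2⟩ | ⟨H1, H2⟩ | ⟨H1, H2⟩ | ⟨H1, H2⟩ | ⟨H1, H2⟩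
  · left
    exact ⟨by rw [← f2, H1], by rw [← f4, H2]⟩
  · right; left
    exact ⟨by rw [← f1, H1], by rw [← f2, H1]⟩
  · right; right; left
    have e1 : u.1 = -u.1 := by
      have := congrArg Prod.fst H1
      rw [f1] at this
      exact this
    have e2 : (starRingEnd ℂ) v.2 = v.2 - u.2 := by
      have := congrArg Prod.snd H2
      rw [f4] at this
      exact this
    refine ⟨?_, by rw [e2]; ring⟩
    ext j
    have := congrFun e1 j
    rw [Pi.neg_apply] at this
    rw [Pi.zero_apply]
    linarith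
  · exfalso
    apply hne
    have e1 : u.1 = v.1 - u.1 := by
      have := congrArg Prod.fst H1
      rw [f1] at this
      exact this
    have e2 : v.1 = -u.1 := by
      have := congrArg Prod.fst H2
      rw [f3] at this
      exact this
    constructor
    · ext j
      have a1 := congrFun e1 j
      have a2 := congrFun e2 j
      rw [Pi.sub_apply] at a1
      rw [Pi.neg_apply] at a2
      rw [Pi.zero_apply]
      linarith
    · ext j
      have a1 := congrFun e1 j
      have a2 := congrFun e2 j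
      rw [Pi.sub_apply] at a1
      rw [Pi.neg_apply] at a2
      rw [Pi.zero_apply]
      linarith
  · exfalso
    apply hne
    have e1 : u.1 = -v.1 := by
      have := congrArg Prod.fst H1
      rw [f1] at this
      exact this
    have e2 : v.1 = u.1 - v.1 := by
      have := congrArg Prod.fst H2
      rw [f3] at this
      exact this
    constructor
    · ext j
      have a1 := congrFun e1 j
      have a2 := congrFun e2 j
      rw [Pi.neg_apply] at a1
      rw [Pi.sub_apply] at a2
      rw [Pi.zero_apply]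
      linarith
    · ext j
      have a1 := congrFun e1 j
      have a2 := congrFun e2 j
      rw [Pi.neg_apply] at a1
      rw [Pi.sub_apply] at a2
      rw [Pi.zero_apply]
      linarith
  · right; right; right
    have e1 : v.1 = -v.1 := by
      have := congrArg Prod.fst H2
      rw [f3] at this
      exact this
    have e2 : (starRingEnd ℂ) u.2 = u.2 - v.2 := by
      have := congrArg Prod.snd H1
      rw [f2] at this
      exact this
    refine ⟨?_, by rw [e2]; ring⟩
    ext j
    have := congrFun e1 j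
    rw [Pi.neg_apply] at this
    rw [Pi.zero_apply]
    linarith

end one

end Q123.US
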